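import Mathlib
import Pool.Agent.TH605.Esc.Defs
import Pool.Agent.TH605.Esc.Main
set_option autoImplicit false
open Pool.Agent.TH605.Esc

/-!
# Escobar's conjecture on the first Steklov eigenvalue is false

There is a smooth Riemannian metric on the closed unit ball of `ℝ³` with (strictly) positive Ricci
curvature and a constant `c > 0` such that the second fundamental form of the boundary sphere is
(strictly) larger than `c` times the metric, although `σ₁ < c`: there is a Steklov eigenvalue
`0 < σ < c` (in the example `σ = 1`, with the coordinate `x₂` as eigenfunction).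

Proof.  The metrics are `g_ε = δ + ε h + O(ε²)`, rotationally symmetric about the `x₂`-axis, inside
an exact family for which `x₂` is harmonic and satisfies `∂_ν x₂ = x₂` on the unit sphere, for all
`ε`.  The first order part `h` is an explicit polynomial perturbation (found by linear programming)
for which the linearised Ricci tensor is positive definite on the closed ball and the linearisation
of `II - (1 + ε/2) g` is positive definite on the sphere (kernel checked certificates in
`Pool/Agent/TH605/Esc/Cert.lean`); by compactness the strict inequalities hold for small `ε > 0`.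
-/

namespace Pool.Agent.Results.MP_08bb97_gt.EscobarFails

/-- **Escobar's conjecture fails in dimension three.** -/
theorem result : ∃ (M : Metric 3) (c : ℝ), 0 < c ∧
    (∀ x ∈ ball 3, ∀ v : E 3, v ≠ 0 → 0 < M.Ric x v v) ∧
    (∀ x ∈ sphere 3, ∀ v : E 3, IsTangent x v → v ≠ 0 → c * M.inner x v v < M.II x v v) ∧
    (∃ σ : ℝ, 0 < σ ∧ σ < c ∧ M.IsSteklovEigenvalue σ) ∧ M.sigmaOne < c := by
  obtain ⟨M, c, hc, h1, h2, h3⟩ := counterexample
  refine ⟨M, c, by linarith, h1, h2, ⟨1, one_pos, hc, h3⟩, ?_⟩
  have hb : BddBelow {σ : ℝ | 0 < σ ∧ M.IsSteklovEigenvalue σ} := ⟨0, fun σ hσ => hσ.1.le⟩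
  exact lt_of_le_of_lt (csInf_le hb ⟨one_pos, h3⟩) hc

end Pool.Agent.Results.MP_08bb97_gt.EscobarFails
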